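import Pool.Agent.Helper92.Mz.Motzkin

/-!
# The greatest density of a generating set with a prescribed transition set

`Fam r W` is the family `𝒜(r, W)`, `theta r W` the exponent `θ(r, W)`, `Grows A θ` says that
`A(t) ≫ t ^ θ` (definitions of the library module `LinearGrowth`). `count A t` is the number `A(t)` of
elements of `A` that are at most `t`, and `DiffFree W S` says that no two elements of `S` differ by an
element of `W`.
-/

open Pool.Agent.Results.MP_7aef23_nt.LinearGrowth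

namespace Pool.Agent.Results.MP_7aef23_nt.DensityBounds

open Pool.Agent.Helper92.Mz

/-- (1) `θ(r, W) = 1`, and the supremum is attained.
(2) Every set in `𝒜(r, W)`, `W` nonempty, has `A(t) ≤ t / (⌊r / 3⌋ + 1) + O(1)`; in particular it has
upper density at most `1 / 2` if `r ≥ 3`.
(3) `r = 3`: no two elements of a set in `𝒜(3, W)` differ by an element of `W`, and conversely for
every set `S` no two elements of which differ by an element of `W` there is a set `A` in `𝒜(3, W)`
with `A(t) = S(t) + O(log t)`. So the fastest growth of sets in `𝒜(3, W)` is that of the sets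
without differences in `W`; the greatest (upper or lower) density is Motzkin's density of `W`.
(4) If all elements of `W` are odd multiples of one power of two (for example, if `W` has one
element), then the greatest density of sets in `𝒜(3, W)` is `1 / 2`: `A(t) ≤ t / 2 + O(1)` for all of
them, and `A(t) ≥ t / 2 - O(log t)` for one of them. -/
theorem result :
    (∀ r : ℕ, 2 ≤ r → ∀ W : Finset ℕ, (∀ w ∈ W, 0 < w) →
      theta r W = 1 ∧ ∃ A ∈ Fam r W, Grows A 1) ∧
    (∀ (r : ℕ) (W : Finset ℕ), W.Nonempty → ∀ A ∈ Fam r W,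
      ∃ C : ℕ, ∀ t : ℕ, (r / 3 + 1) * count A t ≤ t + C) ∧
    (∀ W : Finset ℕ, (∀ w ∈ W, 0 < w) → (∀ A ∈ Fam 3 W, DiffFree W A) ∧
      ∀ S : Set ℕ, DiffFree W S → ∃ A ∈ Fam 3 W, ∃ C : ℕ, ∀ t : ℕ,
        count A t ≤ count S t + C * (Nat.log 2 t + 1) ∧
        count S t ≤ count A t + C * (Nat.log 2 t + 1)) ∧
    (∀ (W : Finset ℕ) (a : ℕ), W.Nonempty → (∀ w ∈ W, ∃ m, w = 2 ^ a * (2 * m + 1)) →
      (∀ A ∈ Fam 3 W, ∃ C : ℕ, ∀ t : ℕ, 2 * count A t ≤ t + C) ∧
      ∃ A ∈ Fam 3 W, ∃ C : ℕ, ∀ t : ℕ, t ≤ 2 * count A t + C * (Nat.log 2 t + 1)) := by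
  have hup : ∀ (r : ℕ) (W : Finset ℕ), W.Nonempty → ∀ A ∈ Fam r W,
      ∃ C : ℕ, ∀ t : ℕ, (r / 3 + 1) * count A t ≤ t + C := by
    rintro r W ⟨w, hw⟩ A hA
    exact count_le ((hA.2.2 w).2 ⟨w, hw, Or.inl rfl⟩)
  refine ⟨fun r hr W hpos => ?_, hup, fun W hpos => ⟨fun A hA => ?_, fun S hS =>
    exists_gen W hpos hS⟩, fun W a hne hW => ⟨fun A hA => hup 3 W hne A hA, ?_⟩⟩
  · have h := LinearGrowth.result r hr W hpos
    exact ⟨h.1, h.2.1⟩
  · exact diffFree_of le_rfl fun w hw => (hA.2.2 w).2 ⟨w, hw, Or.inl rfl⟩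
  · have hpos : ∀ w ∈ W, 0 < w := by
      intro w hw
      obtain ⟨m, rfl⟩ := hW w hw
      positivity
    obtain ⟨A, hA, C, hC⟩ := exists_gen W hpos (diffFree_even W a hW)
    refine ⟨A, hA, 2 * C, fun t => ?_⟩
    have h1 := (hC t).2
    have h2 := count_even a t
    have h3 : 2 * C * (Nat.log 2 t + 1) = 2 * (C * (Nat.log 2 t + 1)) := by ring
    omega

end Pool.Agent.Results.MP_7aef23_nt.DensityBounds
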